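import Pool.Agent.Helper39.Stab.Ltens

/-! The algebra of a boundary step of the compact model. -/

open CategoryTheory Topology Filter Set Opposite

noncomputable section

namespace Pool.Agent.Helper39.Stab

open Pool.Agent.Helper1.Stab

variable (R : Biv)

/-- `K × pt = K` -/
abbrev rp (K : LC) : K.prod LC.point ≃ₜ K := Homeomorph.prodPUnit K

theorem tens_point2 {K L : LC} (x : R.Hom K L) :
    R.comp (R.tens x LC.point) (R.J (PMap.ofHomeo (rp L))) =
    R.comp (R.J (PMap.ofHomeo (rp K))) x := R.tens_point x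

/-- `(a × S) ≫ (E × y) ≫ (pt)` -/
theorem homeo_ltens_point {A E S : LC} (a : A ≃ₜ E) (y : R.Hom S LC.point) :
    R.comp (R.J ((PMap.ofHomeo a).tens S)) (R.comp (R.ltens E y) (R.J (PMap.ofHomeo (rp E)))) =
      R.comp (R.ltens A y) (R.comp (R.J (PMap.ofHomeo (rp A))) (R.J (PMap.ofHomeo a))) := by
  rw [← R.assoc, ltens_exch, R.assoc, ← R.tens_J, tens_point2]

/-- the computation of the class at the end of a block, without the suspension coordinate -/
theorem bd1 {A S S' E G : LC} (β' : R.Hom LC.point E) (ρ : R.Hom E G) (gk : R.Hom G LC.point)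
    (gS : R.Hom S LC.point) (gS' : R.Hom S' LC.point) (a : A ≃ₜ E) (μ : PMap (G.prod S) S'.plus)
    (hμ : R.comp (R.J μ) gS' = R.comp (R.comp (R.tens gk S) (R.ltens LC.point gS))
      (R.J (PMap.ofHomeo (rp LC.point))))
    (hβ : R.comp (R.comp ρ gk) β' = R.J (PMap.id _)) :
    R.comp (R.J ((PMap.ofHomeo a).tens S)) (R.comp (R.tens ρ S) (R.comp (R.J μ)
      (R.comp gS' (R.comp β' (R.J (PMap.ofHomeo a.symm)))))) =
      R.comp (R.ltens A gS) (R.J (PMap.ofHomeo (rp A))) := by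
  have h1 : R.comp (R.tens ρ S) (R.comp (R.J μ) gS') =
      R.comp (R.ltens E gS) (R.comp (R.J (PMap.ofHomeo (rp E))) (R.comp ρ gk)) := by
    rw [hμ, ← R.assoc, ← R.assoc, ← R.tens_comp, exch', R.assoc, tens_point2]
  have h2 : R.comp (R.tens ρ S) (R.comp (R.J μ)
      (R.comp gS' (R.comp β' (R.J (PMap.ofHomeo a.symm))))) =
      R.comp (R.ltens E gS) (R.comp (R.J (PMap.ofHomeo (rp E))) (R.J (PMap.ofHomeo a.symm))) := by
    have e : R.comp (R.tens ρ S) (R.comp (R.J μ)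
      (R.comp gS' (R.comp β' (R.J (PMap.ofHomeo a.symm))))) =
        R.comp (R.comp (R.tens ρ S) (R.comp (R.J μ) gS'))
          (R.comp β' (R.J (PMap.ofHomeo a.symm))) := by
      simp only [R.assoc]
    rw [e, h1]
    simp only [R.assoc]
    rw [← R.assoc gk, ← R.assoc ρ, ← R.assoc ρ, hβ, R.id_comp]
  rw [h2, ← R.assoc (R.ltens E gS), ← R.assoc, homeo_ltens_point]
  simp only [R.assoc]
  rw [J_homeo_symm, R.comp_id]

/-- the homeomorphism `x + i y ↦ y + i x` -/
def cswap : LC.C ≃ₜ LC.C where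
  toFun z := ⟨z.im, z.re⟩
  invFun z := ⟨z.im, z.re⟩
  left_inv _ := rfl
  right_inv _ := rfl
  continuous_toFun := by
    have : (fun z : ℂ => (⟨z.im, z.re⟩ : ℂ)) = fun z : ℂ => ((z.im : ℂ) + (z.re : ℂ) * Complex.I) := by
      funext z
      apply Complex.ext <;> simp
    show Continuous (fun z : ℂ => (⟨z.im, z.re⟩ : ℂ))
    rw [this]
    fun_prop
  continuous_invFun := by
    have : (fun z : ℂ => (⟨z.im, z.re⟩ : ℂ)) = fun z : ℂ => ((z.im : ℂ) + (z.re : ℂ) * Complex.I) := by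
      funext z
      apply Complex.ext <;> simp
    show Continuous (fun z : ℂ => (⟨z.im, z.re⟩ : ℂ))
    rw [this]
    fun_prop

/-- conjugation with the exchange of the real and the imaginary part of the first coordinate -/
theorem conj_cswap {E G : LC} (ρ : R.Hom E G) :
    R.comp (R.J ((PMap.ofHomeo cswap).tens E)) (R.comp (R.ltens LC.C ρ)
      (R.J ((PMap.ofHomeo cswap).tens G))) = R.ltens LC.C ρ := by
  rw [← R.assoc, ltens_exch, R.assoc, ← R.J_comp]
  have : ((PMap.ofHomeo cswap).tens G).comp ((PMap.ofHomeo cswap).tens G) =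
      PMap.id (LC.C.prod G) := by
    ext x
    rfl
  rw [this, R.comp_id]

/-- the class of the step map at the end of a block -/
theorem bd2 {A S S' E G : LC} (ρ : R.Hom E G) (a : A ≃ₜ E) (μ : PMap (G.prod S) S'.plus)
    (s : PMap (LC.C.prod E) (LC.C.prod G).plus) (hs : R.J s = R.ltens LC.C ρ)
    (st : PMap (LC.C.prod (A.prod S)) (LC.C.prod S').plus)
    (hst : ∀ (z : LC.C) (u : A) (y : S), st (z, (u, y)) =
      (PMap.ltens LC.C μ).plus ((PMap.ofHomeo (asc LC.C G S)).plus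
        (smashPt (LC.C.prod G) S (((PMap.ofHomeo cswap).tens G).plus (s (cswap z, a u)), y)))) :
    R.J st = R.ltens LC.C (R.comp (R.J ((PMap.ofHomeo a).tens S)) (R.comp (R.tens ρ S) (R.J μ))) := by
  have h1 : st = (PMap.ltens LC.C μ).comp ((PMap.ofHomeo (asc LC.C G S)).comp
      (PMap.comp ((((PMap.ofHomeo cswap).tens G).comp (s.comp ((PMap.ofHomeo cswap).tens E))).tens S)
      (PMap.comp (PMap.ofHomeo (asc LC.C E S).symm) (PMap.ltens LC.C ((PMap.ofHomeo a).tens S))))) := by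
    ext ⟨z, u, y⟩
    exact hst z u y
  rw [h1, R.J_comp, R.J_comp, R.J_comp, R.J_comp, ← R.tens_J, R.J_comp, R.J_comp, hs, R.assoc,
    R.assoc, R.assoc, R.assoc, conj_cswap, tens_ltens]
  rw [ltens_comp, ltens_comp, ltens_J, ltens_J]
  congr 1
  have e1 := J_homeo_symm' R (asc LC.C E S)
  have e2 := J_homeo_symm' R (asc LC.C G S)
  simp only [R.assoc]
  rw [← R.assoc (R.J (PMap.ofHomeo (asc LC.C E S).symm)), e1, R.id_comp,
    ← R.assoc (R.J (PMap.ofHomeo (asc LC.C G S).symm)), e2, R.id_comp]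

/-- the class formula at the end of a block -/
theorem bd3 {A S S' E G : LC} (β' : R.Hom LC.point E) (ρ : R.Hom E G) (gk : R.Hom G LC.point)
    (gS : R.Hom S LC.point) (gS' : R.Hom S' LC.point) (a : A ≃ₜ E) (μ : PMap (G.prod S) S'.plus)
    (hμ : R.comp (R.J μ) gS' = R.comp (R.comp (R.tens gk S) (R.ltens LC.point gS))
      (R.J (PMap.ofHomeo (rp LC.point))))
    (hβ : R.comp (R.comp ρ gk) β' = R.J (PMap.id _))
    (s : PMap (LC.C.prod E) (LC.C.prod G).plus) (hs : R.J s = R.ltens LC.C ρ)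
    (st : PMap (LC.C.prod (A.prod S)) (LC.C.prod S').plus)
    (hst : ∀ (z : LC.C) (u : A) (y : S), st (z, (u, y)) =
      (PMap.ltens LC.C μ).plus ((PMap.ofHomeo (asc LC.C G S)).plus
        (smashPt (LC.C.prod G) S (((PMap.ofHomeo cswap).tens G).plus (s (cswap z, a u)), y)))) :
    R.comp (R.J st) (R.ltens LC.C (R.comp gS' (R.comp β' (R.J (PMap.ofHomeo a.symm))))) =
      R.ltens LC.C (R.comp (R.ltens A gS) (R.J (PMap.ofHomeo (rp A)))) := by
  rw [bd2 R ρ a μ s hs st hst, ← ltens_comp, ← bd1 R β' ρ gk gS gS' a μ hμ hβ]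
  simp only [R.assoc]

/-- the class formula at the end of a block, with the additional coordinates -/
theorem bd4 {A A' S S' E G P Z : LC} (β' : R.Hom LC.point E) (ρ : R.Hom E G)
    (gk : R.Hom G LC.point) (gS : R.Hom S LC.point) (gS' : R.Hom S' LC.point) (a : A ≃ₜ E)
    (μ : PMap (G.prod S) S'.plus)
    (hμ : R.comp (R.J μ) gS' = R.comp (R.comp (R.tens gk S) (R.ltens LC.point gS))
      (R.J (PMap.ofHomeo (rp LC.point))))
    (hβ : R.comp (R.comp ρ gk) β' = R.J (PMap.id _))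
    (s : PMap (LC.C.prod E) (LC.C.prod G).plus) (hs : R.J s = R.ltens LC.C ρ)
    (ζ : A' ≃ₜ LC.C.prod P) (p0 : P ≃ₜ LC.point) (b : R.Hom A Z)
    (step : PMap (LC.C.prod (A.prod S)) (A'.prod S').plus)
    (hst : ∀ (z : LC.C) (u : A) (y : S), ((PMap.ofHomeo ((ζ.trans
      (show LC.C.prod P ≃ₜ LC.C.prod LC.point from (Homeomorph.refl LC.C).prodCongr p0)).trans
        (rp LC.C))).tens S').plus (step (z, (u, y))) =
      (PMap.ltens LC.C μ).plus ((PMap.ofHomeo (asc LC.C G S)).plus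
        (smashPt (LC.C.prod G) S (((PMap.ofHomeo cswap).tens G).plus (s (cswap z, a u)), y)))) :
    R.comp (R.J step) (R.comp (R.ltens A' gS') (R.comp (R.J (PMap.ofHomeo (rp A')))
      (R.comp (R.J (PMap.ofHomeo ζ)) (R.ltens LC.C (R.comp (R.J (PMap.ofHomeo p0))
        (R.comp β' (R.comp (R.J (PMap.ofHomeo a.symm)) b))))))) =
      R.ltens LC.C (R.comp (R.ltens A gS) (R.comp (R.J (PMap.ofHomeo (rp A))) b)) := by
  obtain ⟨w, hw⟩ : ∃ w : LC.C.prod P ≃ₜ LC.C.prod LC.point,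
    w = (Homeomorph.refl LC.C).prodCongr p0 := ⟨_, rfl⟩
  obtain ⟨a', ha'⟩ : ∃ a' : A' ≃ₜ LC.C, a' = (ζ.trans w).trans (rp LC.C) := ⟨_, rfl⟩
  have h1 : R.comp (R.ltens A' gS') (R.comp (R.J (PMap.ofHomeo (rp A')))
      (R.comp (R.J (PMap.ofHomeo ζ)) (R.ltens LC.C (R.J (PMap.ofHomeo p0))))) =
      R.comp (R.J ((PMap.ofHomeo a').tens S')) (R.ltens LC.C gS') := by
    have e1 : R.comp (R.J (PMap.ofHomeo ζ)) (R.ltens LC.C (R.J (PMap.ofHomeo p0))) =
        R.comp (R.J (PMap.ofHomeo a')) (R.J (PMap.ofHomeo (rp LC.C).symm)) := by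
      rw [ltens_homeo, ha', ← hw, J_homeo, J_homeo]
      congr 2
    rw [e1, ← R.assoc (R.J (PMap.ofHomeo (rp A'))), ← R.assoc, ← homeo_ltens_point]
    simp only [R.assoc]
    rw [J_homeo_symm, R.comp_id]
  have h2 := bd3 R β' ρ gk gS gS' a μ hμ hβ s hs (((PMap.ofHomeo a').tens S').comp step) (by
    intro z u y
    rw [← hst, ha', hw]
    rfl)
  have h3 : R.comp (R.J step) (R.comp (R.ltens A' gS') (R.comp (R.J (PMap.ofHomeo (rp A')))
      (R.comp (R.J (PMap.ofHomeo ζ)) (R.ltens LC.C (R.comp (R.J (PMap.ofHomeo p0))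
        (R.comp β' (R.comp (R.J (PMap.ofHomeo a.symm)) b))))))) =
      R.comp (R.J step) (R.comp (R.comp (R.ltens A' gS') (R.comp (R.J (PMap.ofHomeo (rp A')))
      (R.comp (R.J (PMap.ofHomeo ζ)) (R.ltens LC.C (R.J (PMap.ofHomeo p0))))))
        (R.comp (R.ltens LC.C (R.comp β' (R.J (PMap.ofHomeo a.symm)))) (R.ltens LC.C b))) := by
    simp only [ltens_comp, R.assoc]
  rw [h3, h1]
  have h4 : R.comp (R.J step) (R.comp (R.comp (R.J ((PMap.ofHomeo a').tens S'))
      (R.ltens LC.C gS')) (R.comp (R.ltens LC.C (R.comp β' (R.J (PMap.ofHomeo a.symm))))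
        (R.ltens LC.C b))) = R.comp (R.comp (R.J (((PMap.ofHomeo a').tens S').comp step))
        (R.ltens LC.C (R.comp gS' (R.comp β' (R.J (PMap.ofHomeo a.symm)))))) (R.ltens LC.C b) := by
    rw [R.J_comp]
    simp only [ltens_comp, R.assoc]
  rw [h4, h2]
  simp only [ltens_comp, R.assoc]

/-- the class formula inside a block -/
theorem in1 {A A' S S' Z : LC} (gS : R.Hom S LC.point) (gS' : R.Hom S' LC.point)
    (θ : S ≃ₜ S') (hθ : R.comp (R.J (PMap.ofHomeo θ)) gS' = gS)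
    (ζ : A' ≃ₜ LC.C.prod A) (b : R.Hom A Z)
    (step : PMap (LC.C.prod (A.prod S)) (A'.prod S').plus)
    (hst : ∀ (z : LC.C) (u : A) (y : S), step (z, (u, y)) =
      (((ζ.symm (z, u), θ y) : A'.prod S') : OnePoint (A'.prod S'))) :
    R.comp (R.J step) (R.comp (R.ltens A' gS') (R.comp (R.J (PMap.ofHomeo (rp A')))
      (R.comp (R.J (PMap.ofHomeo ζ)) (R.ltens LC.C b)))) =
      R.ltens LC.C (R.comp (R.ltens A gS) (R.comp (R.J (PMap.ofHomeo (rp A))) b)) := by
  have h1 : R.comp (R.ltens A' gS') (R.comp (R.J (PMap.ofHomeo (rp A')))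
      (R.comp (R.J (PMap.ofHomeo ζ)) (R.ltens LC.C b))) =
      R.comp (R.J ((PMap.ofHomeo ζ).tens S')) (R.comp (R.ltens (LC.C.prod A) gS')
        (R.comp (R.J (PMap.ofHomeo (rp (LC.C.prod A)))) (R.ltens LC.C b))) := by
    have e1 := homeo_ltens_point R ζ gS'
    rw [← R.assoc (R.J (PMap.ofHomeo (rp A'))), ← R.assoc (R.ltens A' gS'), ← e1]
    simp only [R.assoc]
  rw [h1, ← R.assoc, ← R.J_comp]
  have h2 : ((PMap.ofHomeo ζ).tens S').comp step =
      (PMap.ltens (LC.C.prod A) (PMap.ofHomeo θ)).comp (PMap.ofHomeo (asc LC.C A S).symm) := by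
    ext ⟨z, u, y⟩
    change ((PMap.ofHomeo ζ).tens S').plus (step (z, (u, y))) = _
    rw [hst]
    have e2 : ζ (ζ.symm (z, u)) = (z, u) := ζ.apply_symm_apply _
    change ((show (LC.C.prod A).prod S' from (ζ (ζ.symm (z, u)), θ y)) :
      OnePoint ((LC.C.prod A).prod S')) = _
    rw [e2]
    rfl
  have h3 : R.comp (R.J (PMap.ltens (LC.C.prod A) (PMap.ofHomeo θ))) (R.ltens (LC.C.prod A) gS') =
      R.ltens (LC.C.prod A) gS := by
    rw [← ltens_J, ← ltens_comp, hθ]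
  rw [h2, R.J_comp, R.assoc, ← R.assoc (R.J (PMap.ltens (LC.C.prod A) (PMap.ofHomeo θ))), h3,
    ltens_ltens]
  have h4 : R.comp (R.J (PMap.ofHomeo (asc LC.C A LC.point).symm))
      (R.J (PMap.ofHomeo (rp (LC.C.prod A)))) = R.ltens LC.C (R.J (PMap.ofHomeo (rp A))) := by
    rw [ltens_homeo, J_homeo]
    rfl
  simp only [ltens_comp]
  rw [← h4]
  have h5 := J_homeo_symm' R (asc LC.C A S)
  simp only [R.assoc]
  rw [← R.assoc (R.J (PMap.ofHomeo (asc LC.C A S).symm)), h5, R.id_comp]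

end Pool.Agent.Helper39.Stab
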