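import Pool.Agent.Helper1.Stab.Comp
import Pool.Agent.Helper39.Stab.Bdry

/-! The structure maps of the compact model in coordinates. -/

open CategoryTheory Topology Filter Set Opposite

noncomputable section

namespace Pool.Agent.Helper39.Stab

open Pool.Agent.Helper1.Stab

theorem sph_cast_mk {a b : ℕ} {X : Type} [TopologicalSpace X] (h : a = b) (u : Fin a → unitInterval)
    (x : X) : Sph.cast h (Sph.mk u x) = Sph.mk (fun i => u (Fin.cast h.symm i)) x := by
  subst h
  rfl

theorem teleStr_ne {d v : ℕ} {X : Type} [TopologicalSpace X] (m : SelfMap d X) (h : v ≠ d)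
    {v' : ℕ} (hv' : (if v = d then 1 else v + 1) = v') (hv : v' = v + 1)
    (t : unitInterval) (u : Fin v → unitInterval) (x : X) :
    Sph.cast hv' (teleStr m v t (Sph.mk u x)) =
      Sph.mk (fun i => (Fin.cons t u : Fin (v + 1) → unitInterval) (Fin.cast hv i)) x := by
  subst hv'
  have e : teleStr m v t (Sph.mk u x) = Sph.cast (if_neg h).symm
      (Sph.mk (Fin.cons t u : Fin (v + 1) → unitInterval) x) := dif_neg h
  rw [e, sph_cast_mk]
  rfl

theorem teleStr_eq {d v : ℕ} {X : Type} [TopologicalSpace X] (m : SelfMap d X) (h : d = v)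
    {v' : ℕ} (hv' : (if v = d then 1 else v + 1) = v') (hv : 1 = v')
    (t : unitInterval) (u : Fin v → unitInterval) (x : X) :
    Sph.cast hv' (teleStr m v t (Sph.mk u x)) =
      Sph.cast hv (m.toFun (Fin.cons t (fun i => u (Fin.cast h i)), x)) := by
  subst h
  subst hv'
  have e : teleStr m d t (Sph.mk u x) = Sph.cast (if_pos rfl).symm
      (m.toFun (Fin.cons t u, x)) := dif_pos rfl
  rw [e]
  rfl

theorem squash_unsquash {t : ℝ} (h0 : 0 < t) (h1 : t < 1) : (squash (unsquash t) : ℝ) = t := by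
  unfold squash unsquash
  dsimp only
  split_ifs with h
  · have e1 : |(2 * t - 1) / (2 * t)| = (1 - 2 * t) / (2 * t) := by
      rw [abs_of_nonpos (div_nonpos_of_nonpos_of_nonneg (by linarith) (by linarith)), ← neg_div]
      ring
    rw [e1]
    have e2 : 1 + (1 - 2 * t) / (2 * t) = 1 / (2 * t) := by
      field_simp
      ring
    rw [e2]
    field_simp
    ring
  · push Not at h
    have h2 : 0 < 2 - 2 * t := by linarith
    have e1 : |(2 * t - 1) / (2 - 2 * t)| = (2 * t - 1) / (2 - 2 * t) := by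
      rw [abs_of_nonneg (div_nonneg (by linarith) h2.le)]
    rw [e1]
    have e2 : 1 + (2 * t - 1) / (2 - 2 * t) = 1 / (2 - 2 * t) := by
      rw [eq_div_iff h2.ne', add_mul, div_mul_cancel₀ _ h2.ne']
      ring
    rw [e2, div_div_eq_mul_div, div_one, div_mul_cancel₀ _ h2.ne']
    ring

section

variable {D : Set ℂ} (hD : GoodD D) {k d : ℕ} (hd : 0 < d)
  (f : GenLoop (Fin d) (Gr D k) (Gr.pt D k))

/-- the identification of a level is determined by the points -/
theorem e_coe (m : ℕ) (p : ((model f).upp m).sp 0) (y : modelK hD k d m)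
    (h : (model f).uppCast m 0 p = modelPt hD f m y) :
    (levelsModel hD hd f).e m p = (y : OnePoint (modelK hD k d m)) := by
  have h1 := (exists_levels_aux hD hd f m).choose_spec.2 y
  have h2 : p = ((levelsModel hD hd f).e m).symm (y : OnePoint (modelK hD k d m)) :=
    ((model f).uppCast m 0).injective (h.trans h1.symm)
  rw [h2]
  exact Homeomorph.apply_symm_apply _ _

theorem e_infty (m : ℕ) (p : ((model f).upp m).sp 0)
    (h : (model f).uppCast m 0 p = ((model f).sp (2 * m + 0)).pt) :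
    (levelsModel hD hd f).e m p = OnePoint.infty := by
  have h2 : p = (((model f).upp m).sp 0).pt :=
    ((model f).uppCast m 0).injective (h.trans ((model f).uppCast_pt m 0).symm)
  rw [h2]
  exact (levelsModel hD hd f).e_pt m

/-- the structure map of the compact model, at a point -/
theorem uppCast_sigC (n : ℕ) (z : LC.C) (x : modelK hD k d n) :
    (model f).uppCast (n + 1) 0 (((model f).upp n).sigC ((levelsModel hD hd f).inc n) (z, x)) =
      (model f).str (2 * n + 1) (squash z.re, (model f).str (2 * n) (squash z.im, modelPt hD f n x)) := by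
  have h1 := (exists_levels_aux hD hd f n).choose_spec.2 x
  change (model f).uppCast n 2 (((model f).upp n).str 1 (squash z.re, ((model f).upp n).str 0
    (squash z.im, (levelsModel hD hd f).inc n x))) = _
  rw [(model f).uppCast_str n 1, (model f).uppCast_str n 0]
  change (model f).str (2 * n + 1) (squash z.re, (model f).str (2 * n) (squash z.im,
    (model f).uppCast n 0 (((levelsModel hD hd f).e n).symm (x : OnePoint (modelK hD k d n))))) = _
  rw [show (model f).uppCast n 0 (((levelsModel hD hd f).e n).symm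
    (x : OnePoint (modelK hD k d n))) = modelPt hD f n x from h1]

theorem cons_cons_cast {v v1 v2 : ℕ} (hv : v1 = v + 1) (hv2 : v2 = v1 + 1) (hl : v2 = v + 2)
    (s t : ℝ) (u : Fin v → ℝ) (i : Fin v2) :
    (Fin.cons (squash s) (fun i => (Fin.cons (squash t) (fun i => squash (u i)) :
      Fin (v + 1) → unitInterval) (Fin.cast hv i)) : Fin (v1 + 1) → unitInterval) (Fin.cast hv2 i) =
    squash ((Fin.cons s (Fin.cons t u : Fin (v + 1) → ℝ) : Fin (v + 2) → ℝ) (Fin.cast hl i)) := by
  subst hv
  subst hv2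
  refine Fin.cases rfl (fun j => ?_) i
  refine Fin.cases rfl (fun l => rfl) j

theorem step_inside (n : ℕ) (h1 : lev d (2 * n) ≠ d) (h2 : lev d (2 * n + 1) ≠ d)
    (hl : lev d (2 * (n + 1)) = lev d (2 * n) + 2) (z : LC.C)
    (u : LC.rpow (Fin (lev d (2 * n)))) (y : stageLC hD (blk d (2 * n) * (k + 1)))
    (w : modelK hD k d (n + 1))
    (hw1 : ∀ i, w.1 i = (Fin.cons z.re (Fin.cons z.im u : Fin (lev d (2 * n) + 1) → ℝ) :
      Fin (lev d (2 * n) + 2) → ℝ) (Fin.cast hl i)) (hw2 : w.2.1 = y.1) :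
    (levelsModel hD hd f).step n (z, (u, y)) = (w : OnePoint (modelK hD k d (n + 1))) := by
  change (levelsModel hD hd f).e (n + 1) (((model f).upp n).sigC ((levelsModel hD hd f).inc n)
    (z, (u, y))) = _
  refine e_coe hD hd f (n + 1) _ w ?_
  rw [uppCast_sigC]
  have hv : lev d (2 * n + 1) = lev d (2 * n) + 1 := if_neg h1
  have hv2 : lev d (2 * (n + 1)) = lev d (2 * n + 1) + 1 := if_neg h2
  have a1 := teleStr_ne (mulMap f) h1 (v' := lev d (2 * n + 1)) rfl hv (squash z.im)
    (fun i => squash (u i)) y.1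
  have a2 := teleStr_ne (mulMap f) h2 (v' := lev d (2 * (n + 1))) rfl hv2 (squash z.re)
    (fun i => (Fin.cons (squash z.im) (fun i => squash (u i)) :
      Fin (lev d (2 * n) + 1) → unitInterval) (Fin.cast hv i)) y.1
  apply Subtype.ext
  change Sph.cast rfl (teleStr (mulMap f) (lev d (2 * n + 1)) (squash z.re)
    (Sph.cast rfl (teleStr (mulMap f) (lev d (2 * n)) (squash z.im)
      (Sph.mk (fun i => squash (u i)) y.1)))) = (Sph.mk (fun i => squash (w.1 i)) w.2.1 :
        Sph (lev d (2 * (n + 1))) (BG D))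
  refine (congrArg (fun q => Sph.cast (X := BG D) rfl (teleStr (mulMap f) (lev d (2 * n + 1))
    (squash z.re) q)) a1).trans (a2.trans ?_)
  rw [hw2]
  congr 1
  funext i
  rw [hw1]
  exact cons_cons_cast hv hv2 hl z.re z.im u i

/-- the coordinates of the inner structure map at the end of a block -/
def cc {v : ℕ} (h : d = v) (t : ℝ) (u : Fin v → ℝ) : Fin (d + 1) → unitInterval :=
  Fin.cons (squash t) (fun i => squash (u (Fin.cast h i)))

/-- the bundle over the sphere -/
def Wc (c : Fin (d + 1) → unitInterval) : Gr D k :=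
  if (c 0 : ℝ) ≤ 1 / 2 then f (stretch c) else Gr.pt D k

theorem step_bd_aux (n : ℕ) (h : d = lev d (2 * n)) (hv : 1 = lev d (2 * n + 1))
    (h2 : lev d (2 * n + 1) ≠ d) (hv2 : lev d (2 * (n + 1)) = lev d (2 * n + 1) + 1) (z : LC.C)
    (u : LC.rpow (Fin (lev d (2 * n)))) (y : stageLC hD (blk d (2 * n) * (k + 1))) :
    ((model f).str (2 * n + 1) (squash z.re, (model f).str (2 * n) (squash z.im,
      modelPt hD f n (u, y)))).1 = (Sph.mk (fun i => (Fin.cons (squash z.re)
        (fun i => height (cc h z.im u) (Fin.cast hv.symm i)) :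
          Fin (lev d (2 * n + 1) + 1) → unitInterval) (Fin.cast hv2 i))
            (act D k (Wc f (cc h z.im u), y.1)) : Sph (lev d (2 * (n + 1))) (BG D)) := by
  have a1 := teleStr_eq (mulMap f) h (v' := lev d (2 * n + 1)) rfl hv (squash z.im)
    (fun i => squash (u i)) y.1
  have a3 : (mulMap f).toFun (Fin.cons (squash z.im) (fun i => squash (u (Fin.cast h i))), y.1) =
    (Sph.mk (height (cc h z.im u)) (act D k (Wc f (cc h z.im u), y.1)) : Sph 1 (BG D)) := rfl
  rw [a3, sph_cast_mk] at a1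
  have a2 := teleStr_ne (mulMap f) h2 (v' := lev d (2 * (n + 1))) rfl hv2 (squash z.re)
    (fun i => height (cc h z.im u) (Fin.cast hv.symm i)) (act D k (Wc f (cc h z.im u), y.1))
  change Sph.cast rfl (teleStr (mulMap f) (lev d (2 * n + 1)) (squash z.re)
    (Sph.cast rfl (teleStr (mulMap f) (lev d (2 * n)) (squash z.im)
      (Sph.mk (fun i => squash (u i)) y.1)))) = _
  exact (congrArg (fun q => Sph.cast (X := BG D) rfl (teleStr (mulMap f) (lev d (2 * n + 1))
    (squash z.re) q)) a1).trans a2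

theorem step_bd_infty (n : ℕ) (h : d = lev d (2 * n)) (hv : 1 = lev d (2 * n + 1))
    (h2 : lev d (2 * n + 1) ≠ d) (z : LC.C) (u : LC.rpow (Fin (lev d (2 * n))))
    (y : stageLC hD (blk d (2 * n) * (k + 1)))
    (hc : height (cc h z.im u) ∈ Cube.boundary (Fin 1)) :
    (levelsModel hD hd f).step n (z, (u, y)) = OnePoint.infty := by
  change (levelsModel hD hd f).e (n + 1) (((model f).upp n).sigC ((levelsModel hD hd f).inc n)
    (z, (u, y))) = _
  refine e_infty hD hd f (n + 1) _ ?_
  rw [uppCast_sigC]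
  have hv2 : lev d (2 * (n + 1)) = lev d (2 * n + 1) + 1 := if_neg h2
  apply Subtype.ext
  refine (step_bd_aux hD f n h hv h2 hv2 z u y).trans ?_
  refine mk_eq_pt_of_boundary _ _ ?_
  obtain ⟨i, hi⟩ := hc
  refine ⟨Fin.cast hv2.symm (Fin.succ (Fin.cast hv i)), ?_⟩
  exact hi

theorem step_bd_coe (n : ℕ) (h : d = lev d (2 * n)) (hv : 1 = lev d (2 * n + 1))
    (h2 : lev d (2 * n + 1) ≠ d) (hl : lev d (2 * (n + 1)) = 0 + 2) (z : LC.C)
    (u : LC.rpow (Fin (lev d (2 * n)))) (y : stageLC hD (blk d (2 * n) * (k + 1)))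
    (hc : height (cc h z.im u) ∉ Cube.boundary (Fin 1)) (w : modelK hD k d (n + 1))
    (hw1 : ∀ i, w.1 i = (Fin.cons z.re (fun _ => unsquash (height (cc h z.im u) 0)) :
      Fin (0 + 2) → ℝ) (Fin.cast hl i))
    (hw2 : w.2.1 = act D k (Wc f (cc h z.im u), y.1)) :
    (levelsModel hD hd f).step n (z, (u, y)) = (w : OnePoint (modelK hD k d (n + 1))) := by
  change (levelsModel hD hd f).e (n + 1) (((model f).upp n).sigC ((levelsModel hD hd f).inc n)
    (z, (u, y))) = _
  refine e_coe hD hd f (n + 1) _ w ?_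
  rw [uppCast_sigC]
  have hv2 : lev d (2 * (n + 1)) = lev d (2 * n + 1) + 1 := if_neg h2
  apply Subtype.ext
  refine (step_bd_aux hD f n h hv h2 hv2 z u y).trans ?_
  change _ = (Sph.mk (fun i => squash (w.1 i)) w.2.1 : Sph (lev d (2 * (n + 1))) (BG D))
  rw [hw2]
  congr 1
  funext i
  rw [hw1]
  have key : ∀ {v1 v2 : ℕ} (hv : 1 = v1) (hv2 : v2 = v1 + 1) (hl : v2 = 0 + 2)
      (g : Fin 1 → unitInterval) (i : Fin v2), squash (unsquash (g 0)) = g 0 →
      (Fin.cons (squash z.re) (fun i => g (Fin.cast hv.symm i)) : Fin (v1 + 1) → unitInterval)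
        (Fin.cast hv2 i) = squash ((Fin.cons z.re (fun _ => unsquash (g 0)) : Fin (0 + 2) → ℝ)
          (Fin.cast hl i)) := by
    intro v1 v2 hv hv2 hl g i hg
    subst hv
    subst hv2
    refine Fin.cases rfl (fun j => ?_) i
    obtain rfl := Subsingleton.elim j 0
    exact hg.symm
  refine key hv hv2 hl (height (cc h z.im u)) i ?_
  apply Subtype.ext
  have h0 : height (cc h z.im u) 0 ≠ 0 := fun h' => hc ⟨0, Or.inl h'⟩
  have h1 : height (cc h z.im u) 0 ≠ 1 := fun h' => hc ⟨0, Or.inr h'⟩
  refine squash_unsquash ?_ ?_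
  · exact lt_of_le_of_ne (height (cc h z.im u) 0).2.1 (fun h' => h0 (Subtype.ext h'.symm))
  · exact lt_of_le_of_ne (height (cc h z.im u) 0).2.2 (fun h' => h1 (Subtype.ext h'))

end

end Pool.Agent.Helper39.Stab
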