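import Pool.Agent.Helper1.Stab.Comp
import Pool.Agent.Helper39.Stab.Bdry

/-! The direct sum on the stages of `BU`, in terms of projections. -/

open CategoryTheory Topology Filter Set Opposite

noncomputable section

namespace Pool.Agent.Helper39.Stab

open Pool.Agent.Helper1.Stab

/-- `k + (l + 1) = k + l + 1` -/
def eS (k l : ℕ) : Fin k ⊕ (Fin l ⊕ Fin 1) ≃ Fin (k + l + 1) :=
  (Equiv.sumAssoc _ _ _).symm.trans ((Equiv.sumCongr finSumFinEquiv (Equiv.refl _)).trans
    finSumFinEquiv)

theorem eS_inl (k l : ℕ) (i : Fin k) : ((eS k l (.inl i) : Fin (k + l + 1)) : ℕ) = i := rfl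

theorem eS_inl' (k l : ℕ) (i : Fin l) : ((eS k l (.inr (.inl i)) : Fin (k + l + 1)) : ℕ) = k + i :=
  rfl

theorem eS_inr (k l : ℕ) (i : Fin 1) : ((eS k l (.inr (.inr i)) : Fin (k + l + 1)) : ℕ) = k + l := by
  obtain rfl := Subsingleton.elim i 0
  rfl

/-- the shift of the row -/
def bb (b : Bool) : ℕ := if b then 0 else 1

theorem proj_apply {k : ℕ} (A : Frame k) (x y : Fin k) (b b' : Bool) :
    A.proj.1 (x, b) (y, b') = ∑ c ∈ Finset.range k, A.1 (2 * x + bb b) c *
      star (A.1 (2 * y + bb b') c) := rfl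

section rows

variable {k l : ℕ} (A : Frame k) (B : Frame l)

theorem row1 (i : Fin k) (b : Bool) {c : ℕ} (hc : c < k) :
    (A.sum B).1 (2 * (i : ℕ) + bb b) c = A.1 (2 * i + bb b) c := by
  show (if c < k then _ else _) = _
  rw [if_pos hc]

theorem row1' (i : Fin k) (b : Bool) {c : ℕ} (hc : k ≤ c) :
    (A.sum B).1 (2 * (i : ℕ) + bb b) c = 0 := by
  have hi := i.2
  have hb : bb b ≤ 1 := by unfold bb; split_ifs <;> omega
  show (if c < k then _ else if 2 * (i : ℕ) + bb b < 2 * k then 0 else _) = _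
  rw [if_neg (by omega), if_pos (by omega)]

theorem row2 (r : ℕ) (hr : 2 * k ≤ r) {c : ℕ} (hc : c < k) : (A.sum B).1 r c = 0 := by
  show (if c < k then A.1 r c else _) = _
  rw [if_pos hc, A.2.1 r c (Or.inl hr), if_neg (by omega)]

theorem row2' (i c : ℕ) (b : Bool) :
    (A.sum B).1 (2 * (k + i) + bb b) (k + c) = B.1 (2 * i + bb b) c := by
  show (if k + c < k then _ else if 2 * (k + i) + bb b < 2 * k then 0 else
    B.1 (2 * (k + i) + bb b - 2 * k) (k + c - k)) = _
  rw [if_neg (by omega), if_neg (by omega), Nat.add_sub_cancel_left,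
    show 2 * (k + i) + bb b - 2 * k = 2 * i + bb b by omega]

end rows

theorem sum_split (k l : ℕ) (f : ℕ → ℂ) : ∑ c ∈ Finset.range (k + l + 1), f c =
    ∑ c ∈ Finset.range k, f c + ∑ c ∈ Finset.range l, f (k + c) + f (k + l) := by
  rw [Finset.sum_range_succ, Finset.sum_range_add]

theorem bb_le (b : Bool) : bb b ≤ 1 := by unfold bb; split_ifs <;> omega

theorem sum_incl_proj {k l : ℕ} (A : Frame k) (B : Frame l) :
    (A.sum B).incl.proj =
      GK.reindex (eS k l) (GK.sum (A.proj, GK.sum (B.proj, GK.base (Fin 1)))) := by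
  apply Subtype.ext
  ext ⟨x, b⟩ ⟨y, b'⟩
  obtain ⟨i, rfl⟩ := (eS k l).surjective x
  obtain ⟨j, rfl⟩ := (eS k l).surjective y
  have hR : (GK.reindex (eS k l) (GK.sum (A.proj, GK.sum (B.proj, GK.base (Fin 1))))).1
      (eS k l i, b) (eS k l j, b') = sumFun A.proj.1 (sumFun B.proj.1 (GK.base (Fin 1)).1)
        (i, b) (j, b') := by
    change sumFun A.proj.1 (sumFun B.proj.1 (GK.base (Fin 1)).1) ((eS k l).symm (eS k l i), b)
      ((eS k l).symm (eS k l j), b') = _
    rw [Equiv.symm_apply_apply, Equiv.symm_apply_apply]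
  rw [hR]
  change ∑ c ∈ Finset.range (k + l + 1), (A.sum B).1 (2 * ((eS k l i : Fin (k + l + 1)) : ℕ) + bb b) c *
    star ((A.sum B).1 (2 * ((eS k l j : Fin (k + l + 1)) : ℕ) + bb b') c) = _
  rw [sum_split]
  -- the three column blocks of a row
  have hb := bb_le b
  have hb' := bb_le b'
  have z1 : ∀ (r : ℕ), 2 * k ≤ r → ∀ c ∈ Finset.range k, (A.sum B).1 r c = 0 := fun r hr c hc =>
    row2 A B r hr (Finset.mem_range.1 hc)
  rcases i with i | i | i
  · rcases j with j | j | j
    · rw [eS_inl, eS_inl]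
      rw [Finset.sum_eq_zero (s := Finset.range l) (fun c hc => by
        rw [row1' A B i b (by omega), zero_mul]), row1' A B i b (by omega), zero_mul, add_zero,
        add_zero]
      refine Eq.trans ?_ (proj_apply A i j b b').symm
      refine Finset.sum_congr rfl fun c hc => ?_
      rw [row1 A B i b (Finset.mem_range.1 hc), row1 A B j b' (Finset.mem_range.1 hc)]
    · rw [eS_inl, eS_inl']
      rw [Finset.sum_eq_zero (s := Finset.range l) (fun c hc => by
        rw [row1' A B i b (by omega), zero_mul]), row1' A B i b (by omega), zero_mul, add_zero,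
        add_zero]
      refine Finset.sum_eq_zero fun c hc => ?_
      rw [z1 (2 * (k + (j : ℕ)) + bb b') (by omega) c hc, star_zero, mul_zero]
    · rw [eS_inl, eS_inr]
      rw [Finset.sum_eq_zero (s := Finset.range l) (fun c hc => by
        rw [row1' A B i b (by omega), zero_mul]), row1' A B i b (by omega), zero_mul, add_zero,
        add_zero]
      refine Finset.sum_eq_zero fun c hc => ?_
      rw [z1 (2 * (k + l) + bb b') (by omega) c hc, star_zero, mul_zero]
  · rcases j with j | j | j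
    · rw [eS_inl, eS_inl']
      rw [Finset.sum_eq_zero (s := Finset.range k) (fun c hc => by
        rw [z1 _ (by omega) c hc, zero_mul]), Finset.sum_eq_zero (s := Finset.range l) (fun c hc => by
        rw [row1' A B j b' (by omega), star_zero, mul_zero]), row1' A B j b' (by omega), star_zero,
        mul_zero, add_zero, add_zero]
      rfl
    · rw [eS_inl', eS_inl']
      have hi := i.2
      have hj := j.2
      rw [Finset.sum_eq_zero (s := Finset.range k) (fun c hc => by
        rw [z1 _ (by omega) c hc, zero_mul]), row2' A B, row2' A B,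
        B.2.1 (2 * (i : ℕ) + bb b) l (Or.inr le_rfl), if_neg (by omega), zero_mul, add_zero,
        zero_add]
      refine Eq.trans ?_ (proj_apply B i j b b').symm
      refine Finset.sum_congr rfl fun c hc => ?_
      rw [row2', row2']
    · rw [eS_inl', eS_inr]
      have hi := i.2
      rw [Finset.sum_eq_zero (s := Finset.range k) (fun c hc => by
        rw [z1 _ (by omega) c hc, zero_mul]), row2' A B, row2' A B,
        B.2.1 (2 * (i : ℕ) + bb b) l (Or.inr le_rfl), if_neg (by omega), zero_mul, add_zero,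
        zero_add]
      refine Finset.sum_eq_zero fun c hc => ?_
      have hc' := Finset.mem_range.1 hc
      rw [row2' A B l c b', B.2.1 (2 * l + bb b') c (Or.inl (by omega)), if_neg (by omega),
        star_zero, mul_zero]
  · rcases j with j | j | j
    · rw [eS_inl, eS_inr]
      rw [Finset.sum_eq_zero (s := Finset.range k) (fun c hc => by
        rw [z1 _ (by omega) c hc, zero_mul]), Finset.sum_eq_zero (s := Finset.range l) (fun c hc => by
        rw [row1' A B j b' (by omega), star_zero, mul_zero]), row1' A B j b' (by omega), star_zero,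
        mul_zero, add_zero, add_zero]
      rfl
    · rw [eS_inl', eS_inr]
      have hj := j.2
      rw [Finset.sum_eq_zero (s := Finset.range k) (fun c hc => by
        rw [z1 _ (by omega) c hc, zero_mul]), row2' A B, row2' A B,
        B.2.1 (2 * (j : ℕ) + bb b') l (Or.inr le_rfl), if_neg (by omega), star_zero, mul_zero,
        add_zero, zero_add]
      refine Finset.sum_eq_zero fun c hc => ?_
      have hc' := Finset.mem_range.1 hc
      rw [row2' A B l c b, B.2.1 (2 * l + bb b) c (Or.inl (by omega)), if_neg (by omega), zero_mul]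
    · rw [eS_inr, eS_inr]
      obtain rfl := Subsingleton.elim i 0
      obtain rfl := Subsingleton.elim j 0
      rw [Finset.sum_eq_zero (s := Finset.range k) (fun c hc => by
        rw [z1 _ (by omega) c hc, zero_mul]), Finset.sum_eq_zero (s := Finset.range l) (fun c hc => by
        have hc' := Finset.mem_range.1 hc
        rw [row2' A B l c b, B.2.1 (2 * l + bb b) c (Or.inl (by omega)), if_neg (by omega),
          zero_mul]), row2' A B, row2' A B,
        B.2.1 (2 * l + bb b) l (Or.inr le_rfl), B.2.1 (2 * l + bb b') l (Or.inr le_rfl), zero_add,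
        zero_add]
      show _ = (GK.base (Fin 1)).1 (0, b) (0, b')
      unfold GK.base
      cases b <;> cases b' <;> simp [bb]

/-- block sum with the base point of `G 1` added, in the order of the frames -/
def muG (k l : ℕ) (x : GK (Fin k) × GK (Fin l)) : GK (Fin (k + l + 1)) :=
  GK.reindex (eS k l) (GK.sum (x.1, GK.sum (x.2, GK.base (Fin 1))))

/-- adding the base point of `G 1` -/
def iotaG (l : ℕ) : PMap (LC.G (Fin l)) (LC.G (Fin l ⊕ Fin 1)).plus :=
  (GK.sumMap (Fin l) (Fin 1)).comp ((PMap.ltens (LC.G (Fin l))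
    (PMap.ofPoint (K := LC.G (Fin 1)) (GK.base (Fin 1)))).comp
      (PMap.ofHomeo (rp (LC.G (Fin l))).symm))

/-- `muG` as a pointed map -/
def muGmap (k l : ℕ) : PMap ((LC.G (Fin k)).prod (LC.G (Fin l))) (LC.G (Fin (k + l + 1))).plus :=
  (PMap.ofHomeo (K := LC.G (Fin k ⊕ (Fin l ⊕ Fin 1))) (L := LC.G (Fin (k + l + 1)))
    (GK.reindex (eS k l))).comp ((GK.sumMap (Fin k) (Fin l ⊕ Fin 1)).comp
      (PMap.ltens (LC.G (Fin k)) (iotaG l)))

theorem muGmap_apply (k l : ℕ) (x : GK (Fin k) × GK (Fin l)) :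
    muGmap k l x = ((muG k l x : LC.G (Fin (k + l + 1))) : OnePoint (LC.G (Fin (k + l + 1)))) := rfl

variable (R : GBiv)

theorem iotaG_class (l : ℕ) :
    R.comp (R.J (iotaG l)) (R.g (Fin l ⊕ Fin 1)) = R.g (Fin l) := by
  unfold iotaG
  rw [R.J_comp, R.J_comp]
  have h1 := R.g_sum (Fin l) (Fin 1)
  have h2 := R.g_base (Fin 1)
  simp only [R.assoc]
  simp only [R.assoc] at h1
  rw [h1, ← R.assoc (R.J (PMap.ltens _ _)), ← tens_exch R.toBiv (R.g (Fin l))]
  rw [← ltens_J R.toBiv]
  simp only [R.assoc]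
  rw [← R.assoc (R.ltens LC.point _), ← ltens_comp R.toBiv, h2, ltens_id R.toBiv, R.id_comp]
  have h3 := tens_point2 R.toBiv (R.g (Fin l))
  rw [h3, ← R.assoc, J_homeo_symm' R.toBiv, R.id_comp]

theorem muG_class (k l : ℕ) : R.comp (R.J (muGmap k l)) (R.g (Fin (k + l + 1))) =
    R.comp (R.comp (R.tens (R.g (Fin k)) (LC.G (Fin l))) (R.ltens LC.point (R.g (Fin l))))
      (R.J (PMap.ofHomeo (rp LC.point))) := by
  unfold muGmap
  rw [R.J_comp, R.J_comp]
  have h1 := R.g_sum (Fin k) (Fin l ⊕ Fin 1)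
  have h2 := R.g_reindex (eS k l)
  simp only [R.assoc]
  simp only [R.assoc] at h1
  rw [h2, h1, ← R.assoc (R.J (PMap.ltens _ _)), ← tens_exch R.toBiv (R.g (Fin k))]
  rw [← ltens_J R.toBiv]
  simp only [R.assoc]
  rw [← R.assoc (R.ltens LC.point _), ← ltens_comp R.toBiv, iotaG_class]

theorem mu_class {k l l' : ℕ} (hl : l' = k + l + 1) (hD : GoodD Set.univ)
    (hS : stageLC hD l ≃ₜ LC.G (Fin l))
    (hSp : ∀ A : Frame l, hS ⟨toBG Set.univ l (Quot.mk _ A), ⟨_, rfl⟩⟩ = A.proj)
    (hS' : stageLC hD l' ≃ₜ LC.G (Fin l'))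
    (hSp' : ∀ A : Frame l', hS' ⟨toBG Set.univ l' (Quot.mk _ A), ⟨_, rfl⟩⟩ = A.proj) :
    ∃ μ : PMap ((LC.G (Fin k)).prod (stageLC hD l)) (stageLC hD l').plus,
      (∀ (W : Gr Set.univ k) (y : stageLC hD l) (y' : stageLC hD l'),
        (y'.1 : BG Set.univ) = act Set.univ k (W, y.1) →
        μ (W.toGK, y) = (y' : OnePoint (stageLC hD l'))) ∧
      R.comp (R.J μ) (R.comp (R.J (PMap.ofHomeo hS')) (R.g (Fin l'))) =
        R.comp (R.comp (R.tens (R.g (Fin k)) (stageLC hD l))
          (R.ltens LC.point (R.comp (R.J (PMap.ofHomeo hS)) (R.g (Fin l)))))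
          (R.J (PMap.ofHomeo (rp LC.point))) := by
  subst hl
  refine ⟨(PMap.ofHomeo hS'.symm).comp ((muGmap k l).comp
    (PMap.ltens (LC.G (Fin k)) (PMap.ofHomeo hS))), ?_, ?_⟩
  · intro W y y' hy
    change ((hS'.symm (muG k l (W.toGK, hS y)) : stageLC hD (k + l + 1)) :
      OnePoint (stageLC hD (k + l + 1))) = _
    congr 1
    rw [Homeomorph.symm_apply_eq]
    obtain ⟨y, Y, rfl⟩ := y
    induction Y using Quot.ind with | _ B => ?_
    induction W using Quot.ind with | _ A => ?_
    rw [hSp]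
    change GK.reindex (eS k l) (GK.sum (A.proj, GK.sum (B.proj, GK.base (Fin 1)))) = _
    rw [← sum_incl_proj, ← hSp']
    congr 1
    apply Subtype.ext
    rw [hy]
    exact (Quot.sound (.stab (A.sum B))).symm
  · rw [R.J_comp, R.J_comp]
    simp only [R.assoc]
    have h1 := J_homeo_symm' R.toBiv hS'
    rw [← R.assoc (R.J (PMap.ofHomeo hS'.symm)), h1, R.id_comp]
    have h2 := muG_class R k l
    simp only [R.assoc] at h2
    rw [h2, ← R.assoc, ← tens_exch R.toBiv (R.g (Fin k)), ltens_comp R.toBiv, ← ltens_J R.toBiv]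
    simp only [R.assoc]

end Pool.Agent.Helper39.Stab
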