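import Pool.Agent.Helper1.Stab.Grass

/-! Calculus of the left product in a bivariant theory. -/

open CategoryTheory Topology Filter Set Opposite

noncomputable section

namespace Pool.Agent.Helper39.Stab

open Pool.Agent.Helper1.Stab

variable (R : Biv)

theorem ofHomeo_comp {K L M : LC} (e : K ≃ₜ L) (e' : L ≃ₜ M) :
    (PMap.ofHomeo e').comp (PMap.ofHomeo e) = PMap.ofHomeo (e.trans e') := by
  ext k; rfl

theorem J_homeo {K L M : LC} (e : K ≃ₜ L) (e' : L ≃ₜ M) :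
    R.comp (R.J (PMap.ofHomeo e)) (R.J (PMap.ofHomeo e')) = R.J (PMap.ofHomeo (e.trans e')) := by
  rw [← R.J_comp, ofHomeo_comp]

theorem J_homeo_symm {K L : LC} (e : K ≃ₜ L) :
    R.comp (R.J (PMap.ofHomeo e)) (R.J (PMap.ofHomeo e.symm)) = R.J (PMap.id K) := by
  rw [J_homeo]
  congr 1
  ext k
  change ((e.symm (e k) : K) : OnePoint K) = k
  rw [e.symm_apply_apply]

theorem J_homeo_symm' {K L : LC} (e : K ≃ₜ L) :
    R.comp (R.J (PMap.ofHomeo e.symm)) (R.J (PMap.ofHomeo e)) = R.J (PMap.id L) :=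
  J_homeo_symm R e.symm

theorem box_ofHomeo {K L Z W : LC} (e : K ≃ₜ L) (e' : Z ≃ₜ W) :
    (PMap.ofHomeo e).box (PMap.ofHomeo e') =
      PMap.ofHomeo (K := K.prod Z) (L := L.prod W) (e.prodCongr e') := by
  ext x; rfl

theorem tens_homeo {K L : LC} (e : K ≃ₜ L) (Z : LC) :
    R.tens (R.J (PMap.ofHomeo e)) Z =
      R.J (PMap.ofHomeo (K := K.prod Z) (L := L.prod Z) (e.prodCongr (Homeomorph.refl Z))) := by
  rw [R.tens_J]
  rfl

theorem ltens_J (Z : LC) {K L : LC} (f : PMap K L.plus) :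
    R.ltens Z (R.J f) = R.J (PMap.ltens Z f) := by
  unfold BivData.ltens
  rw [R.tens_J, ← R.J_comp, ← R.J_comp]
  congr 1
  rw [PMap.box_swap, PMap.comp_assoc, ofHomeo_comp]
  ext x
  rfl

theorem ltens_homeo (Z : LC) {K L : LC} (e : K ≃ₜ L) :
    R.ltens Z (R.J (PMap.ofHomeo e)) =
      R.J (PMap.ofHomeo (K := Z.prod K) (L := Z.prod L) ((Homeomorph.refl Z).prodCongr e)) := by
  rw [ltens_J]
  rfl

theorem tens_id (K Z : LC) : R.tens (R.J (PMap.id K)) Z = R.J (PMap.id (K.prod Z)) := by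
  rw [R.tens_J, PMap.tens, PMap.box_id]

theorem ltens_id (Z K : LC) : R.ltens Z (R.J (PMap.id K)) = R.J (PMap.id (Z.prod K)) := by
  rw [ltens_J, PMap.ltens, PMap.box_id]

theorem ltens_comp (Z : LC) {K L M : LC} (x : R.Hom K L) (y : R.Hom L M) :
    R.ltens Z (R.comp x y) = R.comp (R.ltens Z x) (R.ltens Z y) := by
  unfold BivData.ltens
  have h : R.comp (R.J (PMap.ofHomeo (LC.swap L Z))) (R.J (PMap.ofHomeo (LC.swap Z L))) =
      R.J (PMap.id _) := J_homeo_symm R (LC.swap L Z)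
  rw [R.tens_comp, R.assoc, R.assoc, R.assoc, ← R.assoc (R.J (PMap.ofHomeo (LC.swap L Z))), h,
    R.id_comp]

/-- the associator -/
abbrev asc (K L Z : LC) : (K.prod L).prod Z ≃ₜ K.prod (L.prod Z) := Homeomorph.prodAssoc K L Z

theorem tens_tens {K L : LC} (x : R.Hom K L) (Z W : LC) :
    R.comp (R.tens (R.tens x Z) W) (R.J (PMap.ofHomeo (asc L Z W))) =
      R.comp (R.J (PMap.ofHomeo (asc K Z W))) (R.tens x (Z.prod W)) :=
  R.tens_tens x Z W

theorem tens_tens' {K L : LC} (x : R.Hom K L) (Z W : LC) :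
    R.tens (R.tens x Z) W = R.comp (R.J (PMap.ofHomeo (asc K Z W)))
      (R.comp (R.tens x (Z.prod W)) (R.J (PMap.ofHomeo (asc L Z W).symm))) := by
  rw [← R.assoc, ← tens_tens, R.assoc, J_homeo_symm, R.comp_id]

/-- change of the passive factor -/
theorem tens_exch {K L : LC} (x : R.Hom K L) {Z W : LC} (f : PMap Z W.plus) :
    R.comp (R.tens x Z) (R.J (PMap.ltens L f)) = R.comp (R.J (PMap.ltens K f)) (R.tens x W) := by
  have h := R.exch x (R.J f)
  change R.comp (R.tens x Z) (R.ltens L (R.J f)) = R.comp (R.ltens K (R.J f)) (R.tens x W) at h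
  rw [ltens_J, ltens_J] at h
  exact h

theorem exch' {K L Z W : LC} (x : R.Hom K L) (y : R.Hom Z W) :
    R.comp (R.tens x Z) (R.ltens L y) = R.comp (R.ltens K y) (R.tens x W) := R.exch x y

/-- change of the passive factor -/
theorem ltens_exch {Z W : LC} (y : R.Hom Z W) {K L : LC} (f : PMap K L.plus) :
    R.comp (R.J (f.tens Z)) (R.ltens L y) = R.comp (R.ltens K y) (R.J (f.tens W)) := by
  have h := exch' R (R.J f) y
  rw [R.tens_J, R.tens_J] at h
  exact h

/-- normal form of `tens (ltens Z x) W` -/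
theorem tens_ltens_nf (Z : LC) {K L : LC} (x : R.Hom K L) (W : LC) :
    R.tens (R.ltens Z x) W = R.comp (R.J (PMap.ofHomeo
      (((LC.swap Z K).prodCongr (Homeomorph.refl W)).trans (asc K Z W) :
        (Z.prod K).prod W ≃ₜ K.prod (Z.prod W))))
      (R.comp (R.tens x (Z.prod W)) (R.J (PMap.ofHomeo
      (((LC.swap Z L).prodCongr (Homeomorph.refl W)).trans (asc L Z W) :
        (Z.prod L).prod W ≃ₜ L.prod (Z.prod W)).symm))) := by
  unfold BivData.ltens
  rw [R.tens_comp, R.tens_comp, tens_homeo, tens_homeo, tens_tens']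
  have e1 : ∀ {A B C D E : LC} (f : A ≃ₜ B) (g : B ≃ₜ C) (y : R.Hom C D) (g' : D ≃ₜ E) {F : LC}
      (f' : E ≃ₜ F), R.comp (R.J (PMap.ofHomeo f)) (R.comp (R.comp (R.J (PMap.ofHomeo g))
        (R.comp y (R.J (PMap.ofHomeo g')))) (R.J (PMap.ofHomeo f'))) =
        R.comp (R.J (PMap.ofHomeo (f.trans g))) (R.comp y (R.J (PMap.ofHomeo (g'.trans f')))) := by
    intro A B C D E f g y g' F f'
    rw [← J_homeo, ← J_homeo]
    simp only [R.assoc]
  exact e1 _ _ _ _ _

/-- normal form of `ltens Z (tens x W)` -/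
theorem ltens_tens_nf (Z : LC) {K L : LC} (x : R.Hom K L) (W : LC) :
    R.ltens Z (R.tens x W) = R.comp (R.J (PMap.ofHomeo
      (((LC.swap Z (K.prod W)).trans (asc K W Z)).trans
        ((Homeomorph.refl K).prodCongr (LC.swap W Z)) : Z.prod (K.prod W) ≃ₜ K.prod (Z.prod W))))
      (R.comp (R.tens x (Z.prod W)) (R.J (PMap.ofHomeo
      (((LC.swap Z (L.prod W)).trans (asc L W Z)).trans
        ((Homeomorph.refl L).prodCongr (LC.swap W Z)) :
          Z.prod (L.prod W) ≃ₜ L.prod (Z.prod W)).symm))) := by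
  unfold BivData.ltens
  rw [tens_tens']
  have h := tens_exch R x (PMap.ofHomeo (LC.swap W Z))
  have h2 : R.tens x (W.prod Z) = R.comp (R.J (PMap.ofHomeo (K := K.prod (W.prod Z))
      (L := K.prod (Z.prod W)) ((Homeomorph.refl K).prodCongr (LC.swap W Z))))
      (R.comp (R.tens x (Z.prod W)) (R.J (PMap.ofHomeo (K := L.prod (Z.prod W))
      (L := L.prod (W.prod Z)) ((Homeomorph.refl L).prodCongr (LC.swap W Z)).symm))) := by
    rw [← R.assoc]
    have e2 : R.J (PMap.ofHomeo (K := K.prod (W.prod Z))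
      (L := K.prod (Z.prod W)) ((Homeomorph.refl K).prodCongr (LC.swap W Z))) =
        R.J (PMap.ltens K (PMap.ofHomeo (LC.swap W Z))) := rfl
    rw [e2, ← h, R.assoc]
    have e3 : R.comp (R.J (PMap.ltens L (PMap.ofHomeo (LC.swap W Z))))
        (R.J (PMap.ofHomeo (K := L.prod (Z.prod W))
      (L := L.prod (W.prod Z)) ((Homeomorph.refl L).prodCongr (LC.swap W Z)).symm)) =
        R.J (PMap.id _) := J_homeo_symm R (K := L.prod (W.prod Z)) (L := L.prod (Z.prod W))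
          ((Homeomorph.refl L).prodCongr (LC.swap W Z))
    rw [e3, R.comp_id]
  rw [h2]
  have e1 : ∀ {A B C D E F G H : LC} (f : A ≃ₜ B) (g : B ≃ₜ C) (k : C ≃ₜ D) (y : R.Hom D E)
      (k' : E ≃ₜ F) (g' : F ≃ₜ G) (f' : G ≃ₜ H),
      R.comp (R.J (PMap.ofHomeo f)) (R.comp (R.comp (R.J (PMap.ofHomeo g))
        (R.comp (R.comp (R.J (PMap.ofHomeo k)) (R.comp y (R.J (PMap.ofHomeo k'))))
          (R.J (PMap.ofHomeo g')))) (R.J (PMap.ofHomeo f'))) =
        R.comp (R.J (PMap.ofHomeo ((f.trans g).trans k)))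
          (R.comp y (R.J (PMap.ofHomeo (k'.trans (g'.trans f'))))) := by
    intro A B C D E F G H f g k y k' g' f'
    rw [← J_homeo, ← J_homeo, ← J_homeo, ← J_homeo]
    simp only [R.assoc]
  exact e1 _ _ _ _ _ _ _

theorem comp_homeo_congr {A B C D : LC} {e e' : A ≃ₜ B} {f f' : C ≃ₜ D} (x : R.Hom B C)
    (h : ∀ a, e a = e' a) (h' : ∀ c, f c = f' c) :
    R.comp (R.J (PMap.ofHomeo e)) (R.comp x (R.J (PMap.ofHomeo f))) =
      R.comp (R.J (PMap.ofHomeo e')) (R.comp x (R.J (PMap.ofHomeo f'))) := by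
  rw [show e = e' from Homeomorph.ext h, show f = f' from Homeomorph.ext h']

theorem tens_ltens (Z : LC) {K L : LC} (x : R.Hom K L) (W : LC) :
    R.tens (R.ltens Z x) W = R.comp (R.J (PMap.ofHomeo (asc Z K W)))
      (R.comp (R.ltens Z (R.tens x W)) (R.J (PMap.ofHomeo (asc Z L W).symm))) := by
  rw [tens_ltens_nf, ltens_tens_nf]
  have e1 : ∀ {A B C D E F : LC} (f : A ≃ₜ B) (g : B ≃ₜ C) (y : R.Hom C D)
      (k' : D ≃ₜ E) (g' : E ≃ₜ F),
      R.comp (R.J (PMap.ofHomeo f)) (R.comp (R.comp (R.J (PMap.ofHomeo g))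
        (R.comp y (R.J (PMap.ofHomeo k')))) (R.J (PMap.ofHomeo g'))) =
        R.comp (R.J (PMap.ofHomeo (f.trans g))) (R.comp y (R.J (PMap.ofHomeo (k'.trans g')))) := by
    intro A B C D E F f g y k' g'
    rw [← J_homeo, ← J_homeo]
    simp only [R.assoc]
  rw [e1]
  exact comp_homeo_congr R _ (fun _ => rfl) (fun _ => rfl)

theorem tens_swap_nf {K L : LC} (x : R.Hom K L) (W Z : LC) :
    R.tens x (W.prod Z) = R.comp (R.J (PMap.ofHomeo (K := K.prod (W.prod Z))
      (L := K.prod (Z.prod W)) ((Homeomorph.refl K).prodCongr (LC.swap W Z))))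
      (R.comp (R.tens x (Z.prod W)) (R.J (PMap.ofHomeo (K := L.prod (Z.prod W))
      (L := L.prod (W.prod Z)) ((Homeomorph.refl L).prodCongr (LC.swap W Z)).symm))) := by
  have h := tens_exch R x (PMap.ofHomeo (LC.swap W Z))
  rw [← R.assoc]
  have e2 : R.J (PMap.ofHomeo (K := K.prod (W.prod Z))
    (L := K.prod (Z.prod W)) ((Homeomorph.refl K).prodCongr (LC.swap W Z))) =
      R.J (PMap.ltens K (PMap.ofHomeo (LC.swap W Z))) := rfl
  rw [e2, ← h, R.assoc]
  have e3 : R.comp (R.J (PMap.ltens L (PMap.ofHomeo (LC.swap W Z))))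
      (R.J (PMap.ofHomeo (K := L.prod (Z.prod W))
    (L := L.prod (W.prod Z)) ((Homeomorph.refl L).prodCongr (LC.swap W Z)).symm)) =
      R.J (PMap.id _) := J_homeo_symm R (K := L.prod (W.prod Z)) (L := L.prod (Z.prod W))
        ((Homeomorph.refl L).prodCongr (LC.swap W Z))
  rw [e3, R.comp_id]

theorem ltens_ltens (Z W : LC) {K L : LC} (x : R.Hom K L) :
    R.ltens (Z.prod W) x = R.comp (R.J (PMap.ofHomeo (asc Z W K)))
      (R.comp (R.ltens Z (R.ltens W x)) (R.J (PMap.ofHomeo (asc Z W L).symm))) := by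
  unfold BivData.ltens
  rw [R.tens_comp, R.tens_comp, tens_homeo, tens_homeo, tens_tens', tens_swap_nf R x Z W]
  have e2 : ∀ {A B C D E F : LC} (f : A ≃ₜ B) (g : B ≃ₜ C) (y : R.Hom C D)
      (k' : D ≃ₜ E) (g' : E ≃ₜ F),
      R.comp (R.J (PMap.ofHomeo f)) (R.comp (R.comp (R.J (PMap.ofHomeo g))
        (R.comp y (R.J (PMap.ofHomeo k')))) (R.J (PMap.ofHomeo g'))) =
        R.comp (R.J (PMap.ofHomeo (f.trans g))) (R.comp y (R.J (PMap.ofHomeo (k'.trans g')))) := by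
    intro A B C D E F f g y k' g'
    rw [← J_homeo, ← J_homeo]
    simp only [R.assoc]
  rw [e2]
  have e3 : ∀ {A B C D E F G H I J' : LC} (f : A ≃ₜ B) (g : B ≃ₜ C) (k : C ≃ₜ D)
      (l : D ≃ₜ E) (y : R.Hom E F) (l' : F ≃ₜ G) (k' : G ≃ₜ H) (g' : H ≃ₜ I) (f' : I ≃ₜ J'),
      R.comp (R.J (PMap.ofHomeo f)) (R.comp (R.comp (R.J (PMap.ofHomeo g)) (R.comp
        (R.comp (R.J (PMap.ofHomeo k)) (R.comp (R.comp (R.J (PMap.ofHomeo l)) (R.comp y
          (R.J (PMap.ofHomeo l')))) (R.J (PMap.ofHomeo k'))))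
            (R.J (PMap.ofHomeo g')))) (R.J (PMap.ofHomeo f'))) =
        R.comp (R.J (PMap.ofHomeo (((f.trans g).trans k).trans l)))
          (R.comp y (R.J (PMap.ofHomeo (l'.trans (k'.trans (g'.trans f')))))) := by
    intro A B C D E F G H I J' f g k l y l' k' g' f'
    rw [← J_homeo, ← J_homeo, ← J_homeo, ← J_homeo, ← J_homeo, ← J_homeo]
    simp only [R.assoc]
  refine Eq.trans ?_ (e3 _ _ _ _ _ _ _ _ _).symm
  exact comp_homeo_congr R _ (fun _ => rfl) (fun _ => rfl)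

theorem tens_point' {K L : LC} (x : R.Hom K L) :
    R.comp (R.tens x LC.point) (R.J (PMap.ofHomeo (Homeomorph.prodPUnit L : L.prod LC.point ≃ₜ L))) =
    R.comp (R.J (PMap.ofHomeo (Homeomorph.prodPUnit K : K.prod LC.point ≃ₜ K))) x :=
  R.tens_point x

end Pool.Agent.Helper39.Stab
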