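import Pool.Agent.Helper60.Stab.ClsAdd

/-! Auxiliary facts on iterated structure maps and multiples. -/

open CategoryTheory Topology Filter Set Opposite

noncomputable section

namespace Pool.Agent.Helper1.Stab

/-- multiples commute with postcomposition -/
theorem zs_post39 {Z Z' : PT} {W : LC} (θ : Z → Z') (hθ : Continuous θ) (hp : θ Z.pt = Z'.pt)
    (n : ℤ) (x : HMap (LC.C.prod W) Z) :
    HMap.post θ hθ hp (zs Z n x) = zs Z' n (HMap.post θ hθ hp x) := by
  let _ : AddCommGroup ((repF Z).obj (op (LC.C.prod W))) := (isAddFun_repF Z).grp W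
  let _ : AddCommGroup ((repF Z').obj (op (LC.C.prod W))) := (isAddFun_repF Z').grp W
  have hadd : ∀ x y : (repF Z).obj (op (LC.C.prod W)),
      (HMap.post θ hθ hp ((isAddFun_repF Z).add (K := W) x y) : (repF Z').obj (op (LC.C.prod W))) =
        (isAddFun_repF Z').add (K := W) (HMap.post θ hθ hp x) (HMap.post θ hθ hp y) := by
    refine HMap.ind fun f => ?_
    refine HMap.ind fun g => ?_
    rw [add_cls f g]
    refine Eq.trans ?_ (add_cls (PMap.post θ hθ hp f) (PMap.post θ hθ hp g)).symm
    refine congrArg PMap.cls ?_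
    ext k
    change θ ((f.copair g).plus (pinchK W k)) =
      ((PMap.post θ hθ hp f).copair (PMap.post θ hθ hp g)).plus (pinchK W k)
    rcases pinchK W k with _ | (w | w)
    · exact hp
    · rfl
    · rfl
  let φ : ((repF Z).obj (op (LC.C.prod W))) →+ ((repF Z').obj (op (LC.C.prod W))) :=
    AddMonoidHom.mk' (fun x => HMap.post θ hθ hp x) hadd
  exact map_zsmul φ n (show (repF Z).obj (op (LC.C.prod W)) from x)

theorem next_zero39 {Y : Prespectrum} {b j : ℕ} {K : LC} :
    Prespectrum.Rep.next (Y := Y.upp b) (j := j) (K := K) (PMap.zero _ _) = PMap.zero _ _ := by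
  ext x
  exact Levels.sigC_pt (Y.upp b) (n := 2 * j) (PMap.zero ((LC.cpow (Fin j)).prod K) _) (x.1 0)
    (fun i => x.1 i.succ, x.2) rfl

theorem nxt_zero39 {Y : Prespectrum} {b j : ℕ} {K : LC} (n : ℕ) :
    Levels.nxt (PMap.zero _ _ : (Y.upp b).Rep j K) n = PMap.zero _ _ := by
  induction n with
  | zero => rfl
  | succ n ih => rw [Levels.nxt_succ, ih]; exact next_zero39

theorem cls_zero39 (Y : Prespectrum) {b j : ℕ} {K : Test} :
    (hT Y).cls (b := b) (j := j) (K := K) (PMap.zero _ _) = 0 := by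
  have h := (hT Y).map_cls (b := b) (j := j) (K := K) (L := K) (PMap.zero K.obj K.obj.plus)
    (PMap.zero _ _)
  have h2 := (hP_red Y).pbT_zeroMap b (K := K) (L := K)
    ((hT Y).cls (b := b) (j := j) (K := K) (PMap.zero _ _))
  have h3 := h.symm.trans h2
  refine Eq.trans ?_ h3
  refine congrArg (fun g => (hT Y).cls (b := b) (j := j) (K := K) g) ?_
  ext ⟨v, k⟩
  rfl

theorem next_homotopic39 {Y : Prespectrum} {b j : ℕ} {K : LC} {f g : (Y.upp b).Rep j K}
    (h : PMap.Homotopic f g) : PMap.Homotopic f.next g.next := by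
  obtain ⟨H, h0, h1⟩ := h
  let e : LC.I.prod ((LC.cpow (Fin (j + 1))).prod K) ≃ₜ
      LC.C.prod (LC.I.prod ((LC.cpow (Fin j)).prod K)) :=
    { toFun := fun x => (x.2.1 0, (x.1, (fun i => x.2.1 i.succ, x.2.2)))
      invFun := fun x => (x.2.1, ((Fin.cons x.1 x.2.2.1 : Fin (j + 1) → ℂ), x.2.2.2))
      left_inv := by
        rintro ⟨t, v, k⟩
        refine Prod.ext rfl (Prod.ext (funext fun i => ?_) rfl)
        refine Fin.cases ?_ (fun i => ?_) i <;> simp
      right_inv := by
        rintro ⟨z, t, v, k⟩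
        simp
      continuous_toFun := by fun_prop
      continuous_invFun := by
        refine Continuous.prodMk (by fun_prop) (Continuous.prodMk
          (continuous_pi fun i => ?_) (by fun_prop))
        refine Fin.cases ?_ (fun i => ?_) i
        · simp only [Fin.cons_zero]; fun_prop
        · simp only [Fin.cons_succ]; fun_prop }
  refine ⟨((Y.upp b).sigC H).comp (PMap.ofHomeo e), fun x => ?_, fun x => ?_⟩
  · change (Y.upp b).str _ (_, (Y.upp b).str _ (_, H (0, (fun i => x.1 i.succ, x.2)))) = _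
    rw [h0]
    rfl
  · change (Y.upp b).str _ (_, (Y.upp b).str _ (_, H (1, (fun i => x.1 i.succ, x.2)))) = _
    rw [h1]
    rfl

theorem nxt_homotopic39 {Y : Prespectrum} {b j : ℕ} {K : LC} {f g : (Y.upp b).Rep j K}
    (h : PMap.Homotopic f g) (n : ℕ) : PMap.Homotopic (Levels.nxt f n) (Levels.nxt g n) := by
  induction n with
  | zero => exact h
  | succ n ih => exact next_homotopic39 ih

theorem heq_next39 {Y : Prespectrum} {b : ℕ} {K : LC} {j j' : ℕ} (h : j = j')
    (x : (Y.upp b).Rep j K) (y : (Y.upp b).Rep j' K) (hxy : HEq x y) : HEq x.next y.next := by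
  subst h
  rw [eq_of_heq hxy]

theorem nxt_heq39 {Y : Prespectrum} {b j : ℕ} {K : LC} (f : (Y.upp b).Rep j K) (n : ℕ) :
    HEq (Levels.nxt f (n + 1)) (Levels.nxt f.next n) := by
  induction n with
  | zero => exact HEq.rfl
  | succ n ih => exact heq_next39 (by omega) _ _ ih

theorem heq_null39 {Y : Prespectrum} {b : ℕ} {K : LC} {j j' : ℕ} (h : j = j')
    (x : (Y.upp b).Rep j K) (y : (Y.upp b).Rep j' K) (hxy : HEq x y)
    (hx : PMap.Homotopic x (PMap.zero _ _)) : PMap.Homotopic y (PMap.zero _ _) := by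
  subst h
  rw [← eq_of_heq hxy]
  exact hx

end Pool.Agent.Helper1.Stab
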